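import Pool.Agent.Lib.MP_610fe3_an.AC.U1.Spec1
import Pool.Agent.Lib.MP_610fe3_an.AC.U1.SpecLoc1
import Pool.Agent.Lib.MP_610fe3_an.U1.Spec

/-!
# Exponent `4 (u - 1) / u` in EYON: the number of the pieces is replaced by their total length

`K = exp (κ (N - m))`, `u ≥ 2`. By EYA1 and EYB1 the image of the half disc has at most
`J ≤ C (N + 1)^(u-1) K^(2 (u-1))` pieces of unit size. This is a bound for its volume. Its diameter is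
smaller. Let `D' i` be the diameter of the image of the cell `Cl i` of the source. As in EYB1,
`D' i ^ u ≤ C K^(u-1) card (T i) (lam i)^u` (`T i` a net of the image of the cell), and the sum over the
cells which meet the half disc is at most `C K^(u-1) J` (bounded overlap, in each piece): module TGT.
Now apply LOC1 in the SOURCE, with the nets of the cells of the source (module EYB2) and `D i = D' i / (2 t)`:
if `2 t < ∑ D' i` (sum over the cells which meet the path from `s'` to `s' + z` to `t'`) for every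
`z ∈ closedBall 0 (1/4)`, then `1 ≤ C ((N + 1) K)^(u-1) ∑ (D' i / t)^u`, so that
`t^u ≤ C ((N + 1) K)^(u-1) K^(u-1) J ≤ C ((N + 1) K^2)^(2 (u-1))`. So there is a path such that `∑ D' i` is at
most `C (N + 1)^u K^(4 (u-1) / u)`, and it bounds the distance of `X s'`, `X t'`: module COVW. Here
`s', t' ∈ closedBall 0 (1/8)`; the estimate for `s, t ∈ closedBall 0 (ρ₁ / 2)` follows by a chain of small
discs: module CHAIN.
-/

open Set Filter Function Metric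
open scoped Topology

namespace Pool.Agent.Lib.MP610fe3.AC.U2

open Cf H6 T4 T6 _root_.Pool.Agent.Lib.MP610fe3.AC.U1

universe v

open scoped Classical in
/-- Nets of the cells of the source. -/
structure SrcNets {u n : ℕ} (Cl : Fin n → Set (EuclideanSpace ℝ (Fin u)))
    (T : Fin n → Finset (EuclideanSpace ℝ (Fin u))) (l : Fin n → ℝ) (θ Ω K δ : ℝ) (L : ℕ) :
    Prop where
  clo : ∀ i, IsClosed (Cl i)
  siz : ∀ i, 0 < l i ∧ l i ≤ δ ∧ δ ≤ 2 ^ L * l i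
  dia : ∀ i, ∀ y ∈ T i, ∀ y' ∈ T i, dist y y' ≤ K * l i
  cov : ∀ i, ∀ s ∈ Cl i, ∃ y ∈ T i, dist s y ≤ l i
  ovl : ∀ x, ((((Finset.univ : Finset (Fin n)).sigma T).filter
    (fun α => dist α.2 x ≤ θ * l α.1)).card : ℝ) ≤ Ω

/-- Module EYB2: as EYB1, with the nets of the cells of the source (the nets of EYB1, in the
coordinates `x ↦ φ w (ρ₁ • x)`, `lam₀ = ρ₁ / (4 C)`, `l j = C lam j / ρ₁`, `θ = 1 / (4 C²)`). -/
def SpecEyB2 : Prop :=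
  ∀ {M : Type v} [MetricSpace M] [CompactSpace M] (f : M ≃ₜ M) (u : ℕ)
    (φ : M → EuclideanSpace ℝ (Fin u) → M) (C a b κ₀ r r₁ e ρ η ρ₁ κ : ℝ) (P : Set M),
    Sys f u φ C a b κ₀ r r₁ e ρ → Sc C e ρ η ρ₁ → 1000 * C ^ 5 * η ≤ e →
    1000 * C ^ 5 * η ≤ ρ → 0 ≤ κ → CellsP f P r e κ →
    (∀ x ∈ P, ∀ y ∈ Wl f.symm e x, y ∈ P) → ∃ (C₁ θ Ω : ℝ) (ℓ : ℕ), 1 ≤ C₁ ∧ 0 < θ ∧ 1 ≤ Ω ∧
    ∀ (l₀ : ℕ) (q : ℕ → M) (i m N : ℕ) (w : M), l₀ ≤ m → m ≤ N →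
      (∀ s ∈ closedBall (0 : EuclideanSpace ℝ (Fin u)) ρ₁, φ w s ∈ P) →
      (∀ v ∈ Wl f.symm e (q i), ∀ j : ℕ, f^[j] v ∈ P) →
      (∀ x ∈ P, ∃ z ∈ Wl f.symm η x, ∀ s ∈ closedBall (0 : EuclideanSpace ℝ (Fin u)) ρ₁,
        ¬ Lad f e q i (f.symm^[m] (φ w s)) (f.symm^[m - l₀] z)) →
      i * (C * Real.exp (-(b * N)) * (2 * e)) ≤ η / (4 * C) → Dom f φ e ρ₁ q i m w →
      ∃ (n : ℕ) (X Y : EuclideanSpace ℝ (Fin u) → M)
        (Cl : Fin n → Set (EuclideanSpace ℝ (Fin u))) (c : Fin n → EuclideanSpace ℝ (Fin u))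
        (D : Fin n → ℝ) (T : Fin n → Finset (EuclideanSpace ℝ (Fin u))) (l : Fin n → ℝ),
        Img f P C r e η (N - m + l₀) Y Cl c D ∧
        SrcNets Cl T l θ Ω (C₁ * Real.exp (κ * (N - m : ℕ))) (1 / 4) (ℓ * (N - m + 1)) ∧
        ∑ i, D i ^ u ≤ C₁ * Real.exp ((u - 1 : ℕ) * κ * (N - m : ℕ)) ∧
        (∀ s, Y s = f^[m - l₀] (X s)) ∧
        ∀ s ∈ closedBall (0 : EuclideanSpace ℝ (Fin u)) 1,
          Lad f e q i (f.symm^[m] (φ w (ρ₁ • s))) (X s)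

open scoped Classical in
/-- Module TGT: the diameters `D' i` of the images of the cells. `S'` is a part of the disc whose image
is covered by the pieces `Wl f.symm (32 C⁴ η) p`, `p ∈ G`. Proof: nets (SpecNet) of the Bowen balls of size
`4 C η`, `D' i = C diam (Y '' Cl i)`, `D' i ^ u ≤ 2 C^u (K lam i)^(u-1) card (T i) lam i`; if `Cl i` meets
`S'` then `Y (c i) ∈ Wl f.symm (36 C⁴ η) p` for some `p ∈ G`, and `∑ card (T i) (lam i)^u` over these `i` is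
bounded, for every `p`, as in EyB1 (`hpack`). -/
def SpecTgt : Prop :=
  ∀ {M : Type v} [MetricSpace M] (f : M ≃ₜ M) (u : ℕ)
    (φ : M → EuclideanSpace ℝ (Fin u) → M) (C a b κ₀ r r₁ e ρ η κ : ℝ) (P : Set M),
    Sys f u φ C a b κ₀ r r₁ e ρ → 0 < η → 10 ^ 6 * C ^ 20 * η ≤ e →
    10 ^ 6 * C ^ 20 * η ≤ ρ → 0 ≤ κ → CellsP f P r e κ →
    (∀ x ∈ P, ∀ y ∈ Wl f.symm e x, y ∈ P) → ∃ V : ℝ, 0 < V ∧
    ∀ {n : ℕ} (n' : ℕ) (Y : EuclideanSpace ℝ (Fin u) → M)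
      (Cl : Fin n → Set (EuclideanSpace ℝ (Fin u))) (c : Fin n → EuclideanSpace ℝ (Fin u))
      (D : Fin n → ℝ), Img f P C r e η n' Y Cl c D → ∃ D' : Fin n → ℝ,
        (∀ i, 0 ≤ D' i ∧ D' i ≤ 4 * C ^ 3 * η) ∧
        (∀ i, ∀ x ∈ Cl i, ∀ y ∈ Cl i, Y x ∈ Wl f.symm (D' i) (Y y)) ∧
        ∀ (G : Finset M) (S' : Set (EuclideanSpace ℝ (Fin u))),
          (∀ s ∈ S', ∃ p ∈ G, Y s ∈ Wl f.symm (32 * C ^ 4 * η) p) →
          ∑ i, (if (Cl i ∩ S').Nonempty then D' i ^ u else 0) ≤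
            V * Real.exp ((u - 1 : ℕ) * κ * n') * G.card

/-- Module COVW: COVER with weights. -/
def SpecCovW : Prop :=
  ∀ {M : Type v} (R : ℝ → M → M → Prop) (J : ℕ) (E : Fin J → ℝ) (g : ℝ → M)
    (O : Fin J → Set ℝ), (∀ i, 0 ≤ E i) →
    (∀ s t x y z, R s x y → R t y z → R (s + t) x z) →
    (∀ s t x y, s ≤ t → R s x y → R t x y) → (∀ x, R 0 x x) → (∀ i, IsClosed (O i)) →
    (Icc (0 : ℝ) 1 ⊆ ⋃ i, O i) →
    (∀ i, ∀ s ∈ O i, ∀ t ∈ O i, s ∈ Icc (0 : ℝ) 1 → t ∈ Icc (0 : ℝ) 1 → R (E i) (g s) (g t)) →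
    R (∑ i, E i) (g 0) (g 1)

/-- As `U1.SpecEyGenP`, with `s, t ∈ closedBall 0 (ρ₁ / 8)`. -/
def SpecEyGen8 (P : ℕ → ℝ) : Prop :=
  ∀ {M : Type v} [MetricSpace M] [CompactSpace M] (f : M ≃ₜ M) (u : ℕ)
    (φ : M → EuclideanSpace ℝ (Fin u) → M) (C a b κ₀ r r₁ e ρ η ρ₁ κ : ℝ) (X : Set M) (l₀ : ℕ),
    Sys f u φ C a b κ₀ r r₁ e ρ → Sc C e ρ η ρ₁ → 10 ^ 6 * C ^ 20 * η ≤ e →
    10 ^ 6 * C ^ 20 * η ≤ ρ → 0 ≤ κ → CellsP f X r e κ → (∀ x, f x ∈ X ↔ x ∈ X) →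
    (∀ x ∈ X, ∀ y ∈ Wl f.symm r x, y ∈ X) → ∃ C₁ : ℝ, 0 < C₁ ∧
    ∀ (q : ℕ → M) (i m N : ℕ), ∀ w ∈ X, q i ∈ X →
      (l₀ ≤ m → m ≤ N → ∀ x ∈ X, ∃ z ∈ Wl f.symm η x,
        ∀ s ∈ closedBall (0 : EuclideanSpace ℝ (Fin u)) ρ₁,
          ¬ Lad f e q i (f.symm^[m] (φ w s)) (f.symm^[m - l₀] z)) →
      i * (C * Real.exp (-(b * N)) * (2 * e)) ≤ η / (4 * C) → Dom f φ e ρ₁ q i m w →
      ∀ s ∈ closedBall (0 : EuclideanSpace ℝ (Fin u)) (ρ₁ / 8), ∀ t ∈ closedBall 0 (ρ₁ / 8),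
      ∀ z z', Lad f e q i (f.symm^[m] (φ w s)) z → Lad f e q i (f.symm^[m] (φ w t)) z' →
        z' ∈ Wl f.symm (C₁ * (N + 1) ^ u *
          Real.exp (P u * κ * (N - m : ℕ) - a * m)) z

/-- Module CHAIN. -/
def SpecChain : Prop := ∀ P : ℕ → ℝ, SpecEyGen8.{v} P → MP610fe3.U1.SpecEyGenP.{v} P

end Pool.Agent.Lib.MP610fe3.AC.U2
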