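import Pool.Agent.Lib.MP_610fe3_an.AC.U2.Spec
import Pool.Agent.Lib.MP_610fe3_an.AC.U1.OVL
import Pool.Agent.Lib.MP_610fe3_an.AC.U1.EyB1

/-!
# Module TGT: the diameters of the images of the cells

`D' i = C diam (Y '' Cl i)`. With the net `T i`, `lam i` of the Bowen ball of size `4 C η` around `Y (c i)`,
`D' i ^ u ≤ 2 C^u (K lam i)^(u-1) card (T i) lam i`. The cells which meet `S'` have their centers
`Y (c i)` near a point of `G`, and near a point of `G` the sum of `card (T i) (lam i)^u` is bounded, by the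
volume and the bounded overlap of the balls of the nets.
-/

open Set Filter Function Metric
open scoped Topology

namespace Pool.Agent.Lib.MP610fe3.AC.U2

open Cf H6 T4 T6 _root_.Pool.Agent.Lib.MP610fe3.AC.U1

universe v

open scoped Classical in
/-- The images of the cells. -/
theorem specTgt (hNet : SpecNet.{v}) : SpecTgt.{v} := by
  intro M _ f u φ C a b κ₀ r r₁ e ρ η κ P S hη hηe hηρ hκ hQ hsat
  have hC := S.C1
  have hC0 : 0 < C := by linarith
  have he := S.e_pos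
  have her := S.e_le_r
  have hρ := S.ρ_pos
  have hpw : ∀ {k l : ℕ}, k ≤ l → C ^ k * η ≤ C ^ l * η := fun {k l} h =>
    mul_le_mul_of_nonneg_right (pow_le_pow_right₀ hC h) hη.le
  have k0 : η ≤ C ^ 5 * η := le_mul_of_one_le_left hη.le (one_le_pow₀ hC)
  have k1 : C * η ≤ C ^ 5 * η := by
    have := hpw (show 1 ≤ 5 by norm_num)
    rwa [pow_one] at this
  have k2 : C ^ 2 * η ≤ C ^ 4 * η := hpw (by norm_num)
  have k2' : C ^ 2 * η ≤ C ^ 3 * η := hpw (by norm_num)
  have k3 : C ^ 3 * η ≤ C ^ 5 * η := hpw (by norm_num)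
  have k4 : C ^ 4 * η ≤ C ^ 5 * η := hpw (by norm_num)
  have k5 : 0 < C ^ 5 * η := by positivity
  have k20 : C ^ 5 * η ≤ C ^ 20 * η := hpw (by norm_num)
  have hηe' : 10 ^ 6 * (C ^ 5 * η) ≤ e := by
    refine le_trans ?_ hηe
    rw [mul_assoc]
    gcongr
  have hηρ' : 10 ^ 6 * (C ^ 5 * η) ≤ ρ := by
    refine le_trans ?_ hηρ
    rw [mul_assoc]
    gcongr
  have hb : C ^ 3 * (4 * C * η) = 4 * (C ^ 4 * η) := by ring
  have hb' : C * (2 * C ^ 3 * (4 * C * η)) = 8 * (C ^ 5 * η) := by ring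
  obtain ⟨C₁, hC₁, hnet⟩ := hNet f u φ C a b κ₀ r r₁ e ρ (4 * C * η) η κ P S (by positivity) hη
    (by linarith) (by linarith) hκ hQ hsat
  have hC₁0 : 0 < C₁ := by linarith
  obtain ⟨Ω, hΩ, hovl⟩ := ovl_nets S (R := 2 * C ^ 3 * (4 * C * η)) (η₂ := η / (4 * C ^ 2))
    (θ := 4 * C * η) (lam₀ := η) (by positivity) (by positivity) (by linarith) (by positivity)
    hη (by linarith) (by linarith)
  have hΩ0 : 0 < Ω := by linarith
  refine ⟨2 * C ^ u * C₁ ^ (u - 1) * ((4 * C) ^ u * (Ω * (41 * C ^ 5 * η) ^ u)), by positivity, ?_⟩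
  intro n n' Y Cl c D H
  choose lam T hlam0 hlam1 _hlamL hTm hTc hTs hTd hTB hTf using fun i : Fin n =>
    hnet n' (Y (c i)) (H.memP _ (H.sub i (H.cen i)))
  have hbd : ∀ i, Bornology.IsBounded (Y '' Cl i) := by
    intro i
    refine isBounded_iff.2 ⟨4 * C * η, ?_⟩
    rintro _ ⟨x, hx, rfl⟩ _ ⟨y, hy, rfl⟩
    exact H.bow i x hx y hy 0 (Nat.zero_le _)
  have hYe : ∀ i, ∀ x ∈ Cl i, Y x ∈ Wl f.symm e (Y (c i)) := fun i x hx =>
    Wl_mono (by linarith) (H.img i x hx _ (H.cen i))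
  have h4C : 4 * C * η ≤ 2 * C ^ 3 * (4 * C * η) := by
    have : (1 : ℝ) ≤ C ^ 3 := one_le_pow₀ hC
    nlinarith [mul_pos hC0 hη]
  refine ⟨fun i => C * diam (Y '' Cl i), fun i => ⟨mul_nonneg hC0.le diam_nonneg, ?_⟩,
    fun i x hx y hy => ?_, fun G S' hS' => ?_⟩
  · -- the bound
    have h1 : diam (Y '' Cl i) ≤ 4 * C * η := by
      refine diam_le_of_forall_dist_le (by positivity) ?_
      rintro _ ⟨x, hx, rfl⟩ _ ⟨y, hy, rfl⟩
      exact H.bow i x hx y hy 0 (Nat.zero_le _)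
    calc C * diam (Y '' Cl i) ≤ C * (4 * C * η) := by gcongr
      _ = 4 * (C ^ 2 * η) := by ring
      _ ≤ 4 * (C ^ 3 * η) := by gcongr
      _ = 4 * C ^ 3 * η := by ring
  · -- the images of two points of a cell
    refine S.wl_un (Wl_mono (by linarith) (H.img i x hx y hy)) ?_
    exact mul_le_mul_of_nonneg_left
      (dist_le_diam_of_mem (hbd i) (mem_image_of_mem Y hx) (mem_image_of_mem Y hy)) hC0.le
  -- the powers
  have hpow : ∀ i, (C * diam (Y '' Cl i)) ^ u ≤ 2 * C ^ u * C₁ ^ (u - 1) *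
      Real.exp ((u - 1 : ℕ) * κ * n') * (((T i).card : ℝ) * lam i ^ u) := by
    intro i
    have hl := hlam0 i
    have h1 : diam (Y '' Cl i) ≤ 2 * lam i * (T i).card := by
      refine diam_le_of_forall_dist_le (by positivity) ?_
      rintro _ ⟨x, hx, rfl⟩ _ ⟨y, hy, rfl⟩
      exact hTf i (Y x) (hYe i x hx) (Y y) (hYe i y hy) (H.bow i x hx _ (H.cen i))
        (H.bow i y hy _ (H.cen i))
    have h2 : diam (Y '' Cl i) ≤ C₁ * Real.exp (κ * n') * lam i := by
      refine diam_le_of_forall_dist_le (by positivity) ?_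
      rintro _ ⟨x, hx, rfl⟩ _ ⟨y, hy, rfl⟩
      exact hTd i (Y x) (hYe i x hx) (Y y) (hYe i y hy)
        (fun k hk => (H.bow i x hx _ (H.cen i) k hk).trans h4C)
        (fun k hk => (H.bow i y hy _ (H.cen i) k hk).trans h4C)
    have h3 : C * diam (Y '' Cl i) ≤ C * (2 * lam i * (T i).card) := by gcongr
    have h4 : C * diam (Y '' Cl i) ≤ C * (C₁ * Real.exp (κ * n') * lam i) := by gcongr
    refine (EyB1M.pow_bound S.u_pos (by positivity) h3 h4).trans (le_of_eq ?_)
    obtain ⟨k, hk⟩ : ∃ k, u = k + 1 := ⟨u - 1, by have := S.u_pos; omega⟩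
    have h5 : u - 1 = k := by omega
    rw [h5, hk, mul_pow, mul_pow, mul_pow, ← Real.exp_nat_mul, pow_succ C, pow_succ (lam i)]
    ring_nf
  -- the volume near a point
  have hpack : ∀ p : M, ∑ i ∈ Finset.univ.filter
      (fun i => Y (c i) ∈ Wl f.symm (36 * (C ^ 4 * η)) p), ((T i).card : ℝ) * lam i ^ u ≤
      (4 * C) ^ u * (Ω * (41 * C ^ 5 * η) ^ u) := by
    intro p
    have hco : ∀ y : M, ∃ x : EuclideanSpace ℝ (Fin u), y ∈ Wl f.symm (4 * e) p →
        x ∈ closedBall 0 (ρ / 2) ∧ ‖x‖ ≤ C * dist y p ∧ φ p x = y := by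
      intro y
      by_cases h : y ∈ Wl f.symm (4 * e) p
      · obtain ⟨x, h1, h2, h3⟩ := S.onto_small h
        exact ⟨x, fun _ => ⟨h1, h2, h3⟩⟩
      · exact ⟨0, fun h' => absurd h' h⟩
    choose co hco using hco
    set s : Finset (Fin n) := Finset.univ.filter
      (fun i => Y (c i) ∈ Wl f.symm (36 * (C ^ 4 * η)) p) with hs
    have hT1 : ∀ i ∈ s, ∀ y ∈ T i, y ∈ Wl f.symm (40 * (C ^ 4 * η)) p := by
      intro i hi y hy
      have h1 := (hTm i y hy).1
      rw [hb] at h1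
      exact Wl_mono (by linarith) (Wl_trans (Finset.mem_filter.1 hi).2 h1)
    have hT2 : ∀ i ∈ s, ∀ y ∈ T i, y ∈ Wl f.symm (4 * e) p := fun i hi y hy =>
      Wl_mono (by linarith) (hT1 i hi y hy)
    set T' : Fin n → Finset (EuclideanSpace ℝ (Fin u)) := fun i => (T i).image co with hT'
    have hT'1 : ∀ i ∈ s, ∀ x ∈ T' i, x ∈ closedBall (0 : EuclideanSpace ℝ (Fin u)) (ρ / 2) ∧
        ‖x‖ ≤ 40 * (C ^ 5 * η) ∧ φ p x ∈ T i := by
      intro i hi x hx
      obtain ⟨y, hy, rfl⟩ := Finset.mem_image.1 hx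
      obtain ⟨h1, h2, h3⟩ := hco y (hT2 i hi y hy)
      refine ⟨h1, h2.trans ?_, by rw [h3]; exact hy⟩
      have := Wl_dist (hT1 i hi y hy)
      calc C * dist y p ≤ C * (40 * (C ^ 4 * η)) := by gcongr
        _ = 40 * (C ^ 5 * η) := by ring
    have hcard : ∀ i ∈ s, (T' i).card = (T i).card := by
      intro i hi
      refine Finset.card_image_of_injOn fun y hy y' hy' h => ?_
      have h1 := (hco y (hT2 i hi y (Finset.mem_coe.1 hy))).2.2
      have h2 := (hco y' (hT2 i hi y' (Finset.mem_coe.1 hy'))).2.2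
      rw [← h1, ← h2, h]
    have h1 := pack_ovl S.u_pos (s.sigma T') (fun α => α.2) (fun α => lam α.1 / (4 * C)) Ω
      (41 * C ^ 5 * η) hΩ0.le (by positivity)
      (fun α _ => div_nonneg (hlam0 α.1).le (by positivity)) (fun α hα => ?_) (fun x t ht hx => ?_)
    · rw [Finset.sum_sigma] at h1
      have h2 : ∑ i ∈ s, ((T i).card : ℝ) * lam i ^ u =
          (4 * C) ^ u * ∑ i ∈ s, ∑ _α ∈ T' i, (lam i / (4 * C)) ^ u := by
        rw [Finset.mul_sum]
        refine Finset.sum_congr rfl fun i hi => ?_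
        rw [Finset.sum_const, nsmul_eq_mul, hcard i hi, div_pow]
        field_simp
      rw [h2]
      gcongr
    · obtain ⟨h2, h3⟩ := Finset.mem_sigma.1 hα
      obtain ⟨-, h4, -⟩ := hT'1 α.1 h2 α.2 h3
      have h5 : lam α.1 / (4 * C) ≤ η := by
        rw [div_le_iff₀ (by positivity)]
        have := hlam1 α.1
        nlinarith
      simp only [dist_zero_right]
      have h6 : 41 * C ^ 5 * η = 40 * (C ^ 5 * η) + C ^ 5 * η := by ring
      linarith
    · exact hovl n' p s (fun i => Y (c i)) lam T T' (fun i _ => ⟨hlam0 i, hlam1 i⟩)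
        (fun i _ y hy => (hTm i y hy).1) (fun i _ => hTs i) (fun i _ => hTB i)
        (fun i _ j _ hij hW => H.sep i j hij (Wl_mono (by linarith) hW))
        (fun i hi y hy => ⟨(hT'1 i hi y hy).1, (hT'1 i hi y hy).2.2⟩)
        (by linarith) x t ht hx
  -- the sum
  set A : ℝ := 2 * C ^ u * C₁ ^ (u - 1) * Real.exp ((u - 1 : ℕ) * κ * n') with hA
  have hA0 : 0 ≤ A := by positivity
  have hD0 : ∀ i, 0 ≤ (C * diam (Y '' Cl i)) ^ u := fun i =>
    pow_nonneg (mul_nonneg hC0.le diam_nonneg) u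
  calc ∑ i, (if (Cl i ∩ S').Nonempty then (C * diam (Y '' Cl i)) ^ u else 0)
      ≤ ∑ i, ∑ p ∈ G, (if Y (c i) ∈ Wl f.symm (36 * (C ^ 4 * η)) p then
          (C * diam (Y '' Cl i)) ^ u else 0) := by
        refine Finset.sum_le_sum fun i _ => ?_
        have hnn : ∀ p ∈ G, 0 ≤ (if Y (c i) ∈ Wl f.symm (36 * (C ^ 4 * η)) p then
            (C * diam (Y '' Cl i)) ^ u else 0) := by
          intro p _
          split_ifs
          · exact hD0 i
          · exact le_rfl
        by_cases h : (Cl i ∩ S').Nonempty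
        · rw [if_pos h]
          obtain ⟨x, hx, hxS⟩ := h
          obtain ⟨p, hp, hpx⟩ := hS' x hxS
          refine le_trans ?_ (Finset.single_le_sum hnn hp)
          rw [if_pos]
          refine Wl_mono ?_ (Wl_trans hpx (H.img i _ (H.cen i) x hx))
          linarith
        · rw [if_neg h]
          exact Finset.sum_nonneg hnn
    _ = ∑ p ∈ G, ∑ i ∈ Finset.univ.filter (fun i => Y (c i) ∈ Wl f.symm (36 * (C ^ 4 * η)) p),
          (C * diam (Y '' Cl i)) ^ u := by
        rw [Finset.sum_comm]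
        refine Finset.sum_congr rfl fun p _ => ?_
        rw [Finset.sum_filter]
    _ ≤ ∑ _p ∈ G, A * ((4 * C) ^ u * (Ω * (41 * C ^ 5 * η) ^ u)) := by
        refine Finset.sum_le_sum fun p _ => ?_
        refine (Finset.sum_le_sum fun i _ => hpow i).trans ?_
        rw [← Finset.mul_sum]
        exact mul_le_mul_of_nonneg_left (hpack p) hA0
    _ = _ := by
        rw [Finset.sum_const, nsmul_eq_mul, hA]
        ring

end Pool.Agent.Lib.MP610fe3.AC.U2
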