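import Pool.Agent.Lib.MP_610fe3_an.AC.U2.AllOf
import Pool.Agent.Lib.MP_610fe3_an.AC.U2.EYB2
import Pool.Agent.Lib.MP_610fe3_an.AC.U2.TGT
import Pool.Agent.Lib.MP_610fe3_an.AC.U1.NET
import Pool.Agent.Lib.MP_610fe3_an.U1.AllP

/-!
# The exponent `4 (u - 1) / u`: the key estimate and what follows from it
-/

namespace Pool.Agent.Lib.MP610fe3.AC.U2

open AC T7

universe u v

/-- The key estimate with the exponent `4 (u - 1) / u`. -/
theorem specEyGenP2 : MP610fe3.U1.SpecEyGenP.{v} (fun u => 4 * ((u - 1 : ℕ) : ℝ) / u) :=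
  specEyGenP2_of (specEyB2 MP610fe3.AC.U1.specNet) (specTgt MP610fe3.AC.U1.specNet)

/-- The `C^1` theorem on attractors with the exponent `4 (u - 1) / u`. -/
theorem mfd2P2 : SpecMfd2.{u, v} (fun u => 4 * ((u - 1 : ℕ) : ℝ) / u) :=
  MP610fe3.U1.mfd2P hP2 specEyGenP2

/-- The `C^2` theorem on attractors with the exponent `4 (u - 1) / u`. -/
theorem perA2P2 : SpecPerA2.{u, v} (fun u => 4 * ((u - 1 : ℕ) : ℝ) / u) :=
  MP610fe3.U1.perA2P hP2 specEyGenP2

/-- The abstract theorem T7 with the exponent `4 (u - 1) / u`. -/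
theorem core7P2 : MP610fe3.U1.SpecCore7P.{v} (fun u => 4 * ((u - 1 : ℕ) : ℝ) / u) :=
  MP610fe3.U1.core7P hP2 specEyGenP2

end Pool.Agent.Lib.MP610fe3.AC.U2
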