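import Pool.Agent.Lib.MP_610fe3_an.AC.U2.Spec
import Pool.Agent.Lib.MP_610fe3_an.T6.Basic

/-!
# Module CHAIN: the key estimate for the half disc, from the one for an eighth of the disc
-/

open Set Filter Function Metric
open scoped Topology

namespace Pool.Agent.Lib.MP610fe3.AC.U2

open Cf H6 T4 T6 _root_.Pool.Agent.Lib.MP610fe3.AC.U1

universe v

namespace ChainM

variable {M : Type v} [MetricSpace M] {f : M ≃ₜ M} {u : ℕ}
  {φ : M → EuclideanSpace ℝ (Fin u) → M} {C a b κ₀ r r₁ e ρ η ρ₁ : ℝ}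

theorem ρ'_le (S : Sys f u φ C a b κ₀ r r₁ e ρ) (hc : Sc C e ρ η ρ₁) :
    ρ₁ / (2 * C ^ 2) ≤ ρ₁ := by
  have hC := S.C1
  have h1 := hc.ρ₁_pos
  have h2 : (1 : ℝ) ≤ C ^ 2 := one_le_pow₀ hC
  exact div_le_self h1.le (by linarith)

theorem sc' (S : Sys f u φ C a b κ₀ r r₁ e ρ) (hc : Sc C e ρ η ρ₁) :
    Sc C e ρ η (ρ₁ / (2 * C ^ 2)) := by
  have hC := S.C1
  have h1 := hc.ρ₁_pos
  have h2 : (0 : ℝ) < C ^ 2 := by positivity
  have h3 := ρ'_le S hc
  have h4 := hc.ρ₁_le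
  have h5 := hc.ρ₁_le'
  refine ⟨hc.η_pos, hc.η_le, by positivity, ?_, by linarith⟩
  calc C ^ 2 * (ρ₁ / (2 * C ^ 2)) ≤ C ^ 2 * ρ₁ := by gcongr
    _ ≤ η := h4

/-- The small disc at a point of the half disc is inside the disc. -/
theorem inside (S : Sys f u φ C a b κ₀ r r₁ e ρ) (hc : Sc C e ρ η ρ₁) {w : M}
    {x s : EuclideanSpace ℝ (Fin u)} (hx : x ∈ closedBall (0 : EuclideanSpace ℝ (Fin u)) (ρ₁ / 2))
    (hs : s ∈ closedBall (0 : EuclideanSpace ℝ (Fin u)) (ρ₁ / (2 * C ^ 2))) :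
    ∃ y ∈ closedBall (0 : EuclideanSpace ℝ (Fin u)) ρ₁, φ w y = φ (φ w x) s := by
  have hC := S.C1
  have hC0 : 0 < C := by linarith
  have hρ₁ := hc.ρ₁_pos
  have hρ := S.ρ_pos
  have h1 := hc.ρ₁_le'
  have hη := hc.η_pos
  have hηe := hc.η_le
  have hρ' := ρ'_le S hc
  have hx1 : x ∈ closedBall (0 : EuclideanSpace ℝ (Fin u)) ρ₁ :=
    closedBall_subset_closedBall (by linarith) hx
  have hx2 : x ∈ closedBall (0 : EuclideanSpace ℝ (Fin u)) ρ :=
    closedBall_subset_closedBall (by linarith) hx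
  have h2 : φ w x ∈ Wl f.symm η w := Sc.disc S hc w hx1
  have h3 : φ (φ w x) s ∈ Wl f.symm η (φ w x) := Sc.disc S (sc' S hc) _ hs
  have h4 : φ (φ w x) s ∈ Wl f.symm (4 * e) w := by
    refine Wl_mono ?_ (Wl_trans h2 h3)
    nlinarith
  obtain ⟨y, hy, -, hy'⟩ := S.onto_small h4
  have hy2 : y ∈ closedBall (0 : EuclideanSpace ℝ (Fin u)) ρ :=
    closedBall_subset_closedBall (by linarith) hy
  have hs2 : s ∈ closedBall (0 : EuclideanSpace ℝ (Fin u)) ρ :=
    closedBall_subset_closedBall (by linarith) hs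
  refine ⟨y, ?_, hy'⟩
  have h5 := S.lower w y hy2 x hx2
  have h6 := S.upper (φ w x) s hs2 0 S.ρ_mem
  rw [S.zero, dist_zero_right] at h6
  rw [hy'] at h5
  rw [mem_closedBall_zero_iff] at hs hx ⊢
  have h7 : dist y x ≤ ρ₁ / 2 := by
    calc dist y x ≤ C * dist (φ (φ w x) s) (φ w x) := h5
      _ ≤ C * (C * ‖s‖) := by gcongr
      _ ≤ C * (C * (ρ₁ / (2 * C ^ 2))) := by gcongr
      _ = ρ₁ / 2 := by field_simp
  calc ‖y‖ = ‖(y - x) + x‖ := by rw [sub_add_cancel]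
    _ ≤ ‖y - x‖ + ‖x‖ := norm_add_le _ _
    _ ≤ ρ₁ := by
        rw [← dist_eq_norm]
        linarith

/-- A point of the half disc in the coordinates of a near point of the half disc. -/
theorem coord (S : Sys f u φ C a b κ₀ r r₁ e ρ) (hc : Sc C e ρ η ρ₁) {w : M}
    {x y : EuclideanSpace ℝ (Fin u)} (hx : x ∈ closedBall (0 : EuclideanSpace ℝ (Fin u)) (ρ₁ / 2))
    (hy : y ∈ closedBall (0 : EuclideanSpace ℝ (Fin u)) (ρ₁ / 2))
    (hxy : dist y x ≤ ρ₁ / (16 * C ^ 4)) :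
    ∃ t ∈ closedBall (0 : EuclideanSpace ℝ (Fin u)) (ρ₁ / (2 * C ^ 2) / 8),
      φ (φ w x) t = φ w y := by
  have hC := S.C1
  have hC0 : 0 < C := by linarith
  have hρ₁ := hc.ρ₁_pos
  have hρ := S.ρ_pos
  have h1 := hc.ρ₁_le'
  have hη := hc.η_pos
  have hηe := hc.η_le
  have h2 : φ w x ∈ Wl f.symm η w :=
    Sc.disc S hc w (closedBall_subset_closedBall (by linarith) hx)
  have h3 : φ w y ∈ Wl f.symm η w :=
    Sc.disc S hc w (closedBall_subset_closedBall (by linarith) hy)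
  have h4 : φ w y ∈ Wl f.symm (4 * e) (φ w x) := by
    refine Wl_mono ?_ (Wl_trans (Wl_comm h2) h3)
    nlinarith
  obtain ⟨t, -, ht, ht'⟩ := S.onto_small h4
  refine ⟨t, ?_, ht'⟩
  rw [mem_closedBall_zero_iff]
  have h5 := S.upper w y (closedBall_subset_closedBall (by linarith) hy) x
    (closedBall_subset_closedBall (by linarith) hx)
  calc ‖t‖ ≤ C * dist (φ w y) (φ w x) := ht
    _ ≤ C * (C * (ρ₁ / (16 * C ^ 4))) := by
        refine mul_le_mul_of_nonneg_left (h5.trans ?_) hC0.le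
        gcongr
    _ = ρ₁ / (2 * C ^ 2) / 8 := by
        field_simp
        ring

end ChainM

open ChainM

/-- Module CHAIN. -/
theorem specChain : SpecChain.{v} := by
  intro P hE M _ _ f u φ C a b κ₀ r r₁ e ρ η ρ₁ κ X l₀ S hc h1 h2 hκ hcells hinv hsat
  have hC := S.C1
  have hC0 : 0 < C := by linarith
  have hρ₁ := hc.ρ₁_pos
  have hη := hc.η_pos
  have hηe := hc.η_le
  have he := S.e_pos
  have her := S.e_le_r
  obtain ⟨C₁, hC₁, H⟩ := hE f u φ C a b κ₀ r r₁ e ρ η (ρ₁ / (2 * C ^ 2)) κ X l₀ S (sc' S hc)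
    h1 h2 hκ hcells hinv hsat
  obtain ⟨k, hk⟩ := exists_nat_ge (16 * C ^ 4)
  have hk0 : (0 : ℝ) < k := lt_of_lt_of_le (by positivity) hk
  refine ⟨(k + 1) * C₁, by positivity, ?_⟩
  intro q i m N w hw hq hinr hi hdom s hs t ht z z' hz hz'
  set E : ℝ := C₁ * (N + 1) ^ u * Real.exp (P u * κ * (N - m : ℕ) - a * m) with hEd
  -- one step
  have step : ∀ x ∈ closedBall (0 : EuclideanSpace ℝ (Fin u)) (ρ₁ / 2),
      ∀ y ∈ closedBall (0 : EuclideanSpace ℝ (Fin u)) (ρ₁ / 2), dist y x ≤ ρ₁ / (16 * C ^ 4) →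
      ∀ v v', Lad f e q i (f.symm^[m] (φ w x)) v → Lad f e q i (f.symm^[m] (φ w y)) v' →
        v' ∈ Wl f.symm E v := by
    intro x hx y hy hxy v v' hv hv'
    obtain ⟨t', ht', ht''⟩ := coord S hc (w := w) hx hy hxy
    have hwx : φ w x ∈ X := by
      refine hsat w hw _ (Wl_mono ?_ (Sc.disc S hc w
        (closedBall_subset_closedBall (by linarith) hx)))
      nlinarith
    have hz0 : φ (φ w x) 0 = φ w x := S.zero _
    refine H q i m N (φ w x) hwx hq (fun h3 h4 p hp => ?_) hi (fun s' hs' => ?_) 0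
      (mem_closedBall_self (by positivity)) t' ht' v v' (by rwa [hz0]) (by rwa [ht''])
    · obtain ⟨y', hy', hy''⟩ := hinr h3 h4 p hp
      refine ⟨y', hy', fun s' hs' => ?_⟩
      obtain ⟨s'', hs'', hs3⟩ := inside S hc (w := w) hx hs'
      rw [← hs3]
      exact hy'' s'' hs''
    · obtain ⟨s'', hs'', hs3⟩ := inside S hc (w := w) hx hs'
      rw [← hs3]
      exact hdom s'' hs''
  -- the points
  set σ : ℕ → EuclideanSpace ℝ (Fin u) := fun j => AffineMap.lineMap s t ((j : ℝ) / k) with hσ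
  have hσm : ∀ j ≤ k, σ j ∈ closedBall (0 : EuclideanSpace ℝ (Fin u)) (ρ₁ / 2) := by
    intro j hj
    refine (convex_closedBall _ _).lineMap_mem hs ht ⟨by positivity, ?_⟩
    rw [div_le_one hk0]
    exact_mod_cast hj
  have hσ0 : σ 0 = s := by simp [hσ]
  have hσk : σ k = t := by
    simp only [hσ]
    rw [div_self hk0.ne', AffineMap.lineMap_apply_one]
  have hσd : ∀ j, dist (σ (j + 1)) (σ j) ≤ ρ₁ / (16 * C ^ 4) := by
    intro j
    simp only [hσ]
    rw [dist_lineMap_lineMap, Real.dist_eq]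
    have h3 : (((j + 1 : ℕ) : ℝ) / k - (j : ℝ) / k) = 1 / k := by
      push_cast
      ring
    rw [h3, abs_of_nonneg (by positivity)]
    have h4 : dist s t ≤ ρ₁ := by
      rw [mem_closedBall] at hs ht
      calc dist s t ≤ dist s 0 + dist t 0 := dist_triangle_right _ _ _
        _ ≤ ρ₁ := by linarith
    calc 1 / (k : ℝ) * dist s t ≤ 1 / (16 * C ^ 4) * ρ₁ := by gcongr
      _ = ρ₁ / (16 * C ^ 4) := by ring
  -- induction
  have key : ∀ j ≤ k, ∀ v, Lad f e q i (f.symm^[m] (φ w (σ j))) v →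
      v ∈ Wl f.symm ((j + 1) * E) z := by
    intro j
    induction j with
    | zero =>
      intro _ v hv
      rw [hσ0] at hv
      have := step s hs s hs (by rw [dist_self]; positivity) z v hz hv
      simpa using this
    | succ j ih =>
      intro hj v hv
      have hj' : j ≤ k := by omega
      obtain ⟨v₀, hv₀⟩ := hdom (σ j) (closedBall_subset_closedBall (by linarith) (hσm j hj'))
      have h3 := ih hj' v₀ hv₀
      have h4 := step (σ j) (hσm j hj') (σ (j + 1)) (hσm (j + 1) hj) (hσd j) v₀ v hv₀ hv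
      refine Wl_mono (le_of_eq ?_) (Wl_trans h3 h4)
      push_cast
      ring
  have h3 := key k le_rfl z' (by rwa [hσk])
  refine Wl_mono (le_of_eq ?_) h3
  rw [hEd]
  ring

end Pool.Agent.Lib.MP610fe3.AC.U2
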