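import Pool.Agent.Lib.MP_610fe3_an.AC.EYON
import Pool.Agent.Lib.MP_610fe3_an.AC.U2.Spec
import Pool.Agent.Lib.MP_610fe3_an.U1.EyP

/-!
# EYGEN with the exponent `4 (u - 1) / u`: assembly
-/

open Set Filter Function Metric
open scoped Topology

namespace Pool.Agent.Lib.MP610fe3.AC.U2

open Cf H6 T4 T6 _root_.Pool.Agent.Lib.MP610fe3.AC.U1

universe v

namespace EyG8M

open scoped Classical in
/-- The displacement along a segment is at most the sum over the cells which meet it. -/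
theorem seg_bound (hCov : SpecCovW.{v}) {M : Type v} [MetricSpace M] {f : M ≃ₜ M} {u n : ℕ}
    {X : EuclideanSpace ℝ (Fin u) → M} {Cl : Fin n → Set (EuclideanSpace ℝ (Fin u))}
    {E : Fin n → ℝ} (hE : ∀ i, 0 ≤ E i) (hclo : ∀ i, IsClosed (Cl i))
    (hcov : closedBall 0 1 ⊆ ⋃ i, Cl i)
    (hX : ∀ i, ∀ x ∈ Cl i, ∀ y ∈ Cl i, X x ∈ Wl f.symm (E i) (X y))
    {s t : EuclideanSpace ℝ (Fin u)} (hs : s ∈ closedBall (0 : EuclideanSpace ℝ (Fin u)) 1)
    (ht : t ∈ closedBall (0 : EuclideanSpace ℝ (Fin u)) 1) :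
    X t ∈ Wl f.symm (∑ i, if (∃ x ∈ segment ℝ s t, x ∈ Cl i) then E i else 0) (X s) := by
  have h := hCov (fun t x y => y ∈ Wl f.symm t x) n
    (fun i => if (∃ x ∈ segment ℝ s t, x ∈ Cl i) then E i else 0)
    (fun τ => X (AffineMap.lineMap s t τ))
    (fun i => (fun τ : ℝ => (AffineMap.lineMap s t τ : EuclideanSpace ℝ (Fin u))) ⁻¹' Cl i) ?_
    (fun s t x y z h1 h2 => Wl_trans h1 h2) (fun s t x y hst h => Wl_mono hst h)
    (fun x => mem_Wl_self le_rfl) (fun i => ?_) ?_ ?_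
  · simpa only [AffineMap.lineMap_apply_zero, AffineMap.lineMap_apply_one] using h
  · intro i
    have := hE i
    split_ifs <;> first | exact this | exact le_rfl
  · exact (hclo i).preimage AffineMap.lineMap_continuous
  · intro τ hτ
    have h1 : (AffineMap.lineMap s t τ : EuclideanSpace ℝ (Fin u)) ∈
        closedBall (0 : EuclideanSpace ℝ (Fin u)) 1 :=
      (convex_closedBall _ _).lineMap_mem hs ht hτ
    obtain ⟨i, hi⟩ := mem_iUnion.1 (hcov h1)
    exact mem_iUnion.2 ⟨i, hi⟩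
  · intro i τ hτ τ' hτ' hI _
    have h1 : ∃ x ∈ segment ℝ s t, x ∈ Cl i := by
      refine ⟨AffineMap.lineMap s t τ, ?_, hτ⟩
      rw [segment_eq_image_lineMap]
      exact ⟨τ, hI, rfl⟩
    show X (AffineMap.lineMap s t τ') ∈ Wl f.symm _ (X (AffineMap.lineMap s t τ))
    rw [if_pos h1]
    exact hX i _ hτ' _ hτ

end EyG8M

open EyGM EyG8M in
open scoped Classical in
/-- EYGEN with the exponent `4 (u - 1) / u`. -/
theorem specEyGen8_of (hEA : SpecEyA1.{v}) (hEB : SpecEyB2.{v}) (hT : SpecTgt.{v})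
    (hLoc : SpecLoc1) (hCov : SpecCovW.{v}) :
    SpecEyGen8.{v} (fun u => 4 * ((u - 1 : ℕ) : ℝ) / u) := by
  intro M _ _ f u φ C a b κ₀ r r₁ e ρ η ρ₁ κ PX l₀ S hc h20e h20ρ hκ hQ hinv hsatr
  have hC := S.C1
  have hC0 : 0 < C := by linarith
  have hη := hc.η_pos
  have hηe := hc.η_le
  have he := S.e_pos
  have her := S.e_le_r
  have hρ₁ := hc.ρ₁_pos
  have ha := S.a_pos
  have hu := S.u_pos
  have hηe5 : 1000 * C ^ 5 * η ≤ e := MP610fe3.U1.small hC hη.le h20e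
  have hηρ5 : 1000 * C ^ 5 * η ≤ ρ := MP610fe3.U1.small hC hη.le h20ρ
  have hsat : ∀ x ∈ PX, ∀ y ∈ Wl f.symm e x, y ∈ PX :=
    fun x hx y hy => hsatr x hx y (Wl_mono (by linarith) hy)
  obtain ⟨V, hV, hA⟩ := hEA f u φ C a b κ₀ r r₁ e ρ η κ PX S hη hηe5 hηρ5 hκ hQ hsat
  obtain ⟨C₁, θ, Ω, ℓ, hC₁, hθ, hΩ, hB⟩ := hEB f u φ C a b κ₀ r r₁ e ρ η ρ₁ κ PX S hc hηe5 hηρ5 hκ
    hQ hsat
  obtain ⟨Vt, hVt, hTg⟩ := hT f u φ C a b κ₀ r r₁ e ρ η κ PX S hη h20e h20ρ hκ hQ hsat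
  obtain ⟨CL, hCL, hL⟩ := hLoc u θ hu hθ
  have hC₁0 : 0 < C₁ := by linarith
  have hΩ0 : 0 < Ω := by linarith
  set V' : ℝ := V * (((l₀ : ℝ) + 1) * Real.exp (κ * l₀)) ^ (u - 1) * C₁ with hV'
  have hV'0 : 0 < V' := by positivity
  set W : ℝ := CL * (Ω * C₁ * ((ℓ : ℝ) + 1)) ^ (u - 1) * (Vt * Real.exp ((u - 1 : ℕ) * κ * l₀) * V')
    with hW
  have hW0 : 0 < W := by positivity
  set B : ℝ := max 1 W with hBdef
  have hB1 : 1 ≤ B := le_max_left _ _
  have hBW : W ≤ B := le_max_right _ _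
  have hB0 : 0 < B := by linarith
  set E₀ : ℝ := C * Real.exp (a * l₀) with hE₀
  have hE₀0 : 0 < E₀ := by positivity
  set Cf : ℝ := 2 * e * Real.exp (a * l₀) + 4 * C ^ 3 * η + 2 * (E₀ * B) with hCf
  have hCf0 : 0 < Cf := by positivity
  refine ⟨Cf, hCf0, ?_⟩
  intro q i m N w hwP₀ hqP₀ hinr hi hdom s hs t ht z z' hz hz'
  have hηe1 : η ≤ e := by nlinarith
  have hwP : ∀ s ∈ closedBall (0 : EuclideanSpace ℝ (Fin u)) ρ₁, φ w s ∈ PX := fun s hs =>
    hsat w hwP₀ _ (Wl_mono hηe1 (hc.disc S w hs))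
  have hqP : ∀ v ∈ Wl f.symm e (q i), ∀ j : ℕ, f^[j] v ∈ PX := by
    intro v hv j
    induction j with
    | zero => exact hsat _ hqP₀ v hv
    | succ j ih => rw [iterate_succ_apply']; exact (hinv _).2 ih
  have hi' : i * (C * Real.exp (-(b * N)) * (2 * e)) ≤ η := by
    refine hi.trans ?_
    rw [div_le_iff₀ (by positivity)]
    nlinarith
  have hballs : closedBall (0 : EuclideanSpace ℝ (Fin u)) (ρ₁ / 8) ⊆ closedBall 0 ρ₁ :=
    closedBall_subset_closedBall (by linarith)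
  set x₀ : ℝ := 4 * ((u - 1 : ℕ) : ℝ) / u * κ * (N - m : ℕ) with hx₀
  have hx₀0 : 0 ≤ x₀ := by positivity
  -- lower bound of the result
  have hlow : ∀ x : ℝ, x ≤ Cf → x * Real.exp (-(a * m)) ≤ Cf * (N + 1) ^ u *
      Real.exp (x₀ - a * m) := by
    intro x hx
    have h1 : (1 : ℝ) ≤ ((N : ℝ) + 1) ^ u := one_le_pow₀ (by
      have : (0 : ℝ) ≤ N := Nat.cast_nonneg N
      linarith)
    have h2 : Real.exp (-(a * m)) ≤ Real.exp (x₀ - a * m) := by
      apply Real.exp_le_exp.2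
      linarith
    calc x * Real.exp (-(a * m)) ≤ Cf * Real.exp (-(a * m)) := by gcongr
      _ = Cf * 1 * Real.exp (-(a * m)) := by ring
      _ ≤ _ := by gcongr
  show z' ∈ Wl f.symm (Cf * (N + 1) ^ u * Real.exp (x₀ - a * m)) z
  rcases lt_or_ge m l₀ with hml | hml
  · -- short times
    have h1 : z' ∈ Wl f.symm (2 * e) z := by
      have := Wl_trans (Wl_comm hz.last) hz'.last
      rwa [← two_mul] at this
    refine Wl_mono ?_ h1
    have h2 : (1 : ℝ) ≤ Real.exp (a * l₀) * Real.exp (-(a * m)) := by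
      rw [← Real.exp_add]
      apply Real.one_le_exp
      have : (m : ℝ) ≤ l₀ := by exact_mod_cast hml.le
      nlinarith
    calc 2 * e = 2 * e * 1 := by ring
      _ ≤ 2 * e * (Real.exp (a * l₀) * Real.exp (-(a * m))) := by gcongr
      _ = 2 * e * Real.exp (a * l₀) * Real.exp (-(a * m)) := by ring
      _ ≤ _ := hlow _ (by
        have : 0 ≤ 4 * C ^ 3 * η + 2 * (E₀ * B) := by positivity
        linarith)
  rcases lt_or_ge N m with hNm | hmN
  · -- long times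
    refine Wl_mono ?_ (big S hc hNm.le hi' (hballs hs) (hballs ht) hz hz')
    refine hlow _ ?_
    have : 0 ≤ 2 * e * Real.exp (a * l₀) + 2 * (E₀ * B) := by positivity
    linarith
  -- the main case
  obtain ⟨n, X, Y, Cl, c, D, T, l, H, HT, hsum, hYX, hlad⟩ := hB l₀ q i m N w hml hmN hwP hqP
    (hinr hml hmN) hi hdom
  obtain ⟨D', hD'1, hD'2, hD'3⟩ := hTg (N - m + l₀) Y Cl c D H
  set σ : ℝ := 32 * C ^ 4 * η with hσ
  have hσ0 : 0 < σ := by positivity
  set WW : Set M := Y '' closedBall 0 (1 / 2) with hWW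
  -- the number of pieces
  have hcard : ∀ G : Finset M, (∀ p ∈ G, p ∈ WW) →
      (∀ p ∈ G, ∀ p' ∈ G, p ≠ p' → ¬ p' ∈ Wl f.symm σ p) →
      (G.card : ℝ) ≤ V' * (N + 1) ^ (u - 1) * Real.exp (2 * (u - 1 : ℕ) * κ * (N - m : ℕ)) := by
    intro G hG hG'
    have h1 := hA (N - m + l₀) Y Cl c D H G hG hG'
    refine h1.trans ?_
    have h2 : (((N - m + l₀ : ℕ) : ℝ) + 1) ≤ ((l₀ : ℝ) + 1) * (N + 1) := by
      have h3 : (((N - m + l₀ : ℕ) : ℝ) + 1) ≤ N + l₀ + 1 := by
        have : N - m + l₀ ≤ N + l₀ := by omega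
        have : ((N - m + l₀ : ℕ) : ℝ) ≤ ((N + l₀ : ℕ) : ℝ) := by exact_mod_cast this
        push_cast at this ⊢
        linarith
      have h4 : (0 : ℝ) ≤ l₀ * N := by positivity
      linarith
    have h3 : Real.exp (κ * (N - m + l₀ : ℕ)) =
        Real.exp (κ * l₀) * Real.exp (κ * (N - m : ℕ)) := by
      rw [← Real.exp_add]
      push_cast
      ring_nf
    have h4 : Real.exp (κ * (N - m : ℕ)) ^ (u - 1) *
        Real.exp ((u - 1 : ℕ) * κ * (N - m : ℕ)) =
        Real.exp (2 * (u - 1 : ℕ) * κ * (N - m : ℕ)) := by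
      rw [← Real.exp_nat_mul, ← Real.exp_add]
      ring_nf
    have h5 : (((N - m + l₀ : ℕ) : ℝ) + 1) * Real.exp (κ * (N - m + l₀ : ℕ)) ≤
        ((l₀ : ℝ) + 1) * Real.exp (κ * l₀) * (N + 1) * Real.exp (κ * (N - m : ℕ)) := by
      rw [h3]
      calc _ ≤ (((l₀ : ℝ) + 1) * (N + 1)) *
            (Real.exp (κ * l₀) * Real.exp (κ * (N - m : ℕ))) := by gcongr
        _ = _ := by ring
    have h6 : 0 ≤ ∑ i, D i ^ u := Finset.sum_nonneg fun i _ => pow_nonneg (H.nn i) u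
    calc V * ((((N - m + l₀ : ℕ) : ℝ) + 1) * Real.exp (κ * (N - m + l₀ : ℕ))) ^ (u - 1) *
          ∑ i, D i ^ u
        ≤ V * (((l₀ : ℝ) + 1) * Real.exp (κ * l₀) * (N + 1) *
          Real.exp (κ * (N - m : ℕ))) ^ (u - 1) * (C₁ * Real.exp ((u - 1 : ℕ) * κ * (N - m : ℕ))) := by
          gcongr
      _ = V * (((l₀ : ℝ) + 1) * Real.exp (κ * l₀)) ^ (u - 1) * C₁ * (N + 1) ^ (u - 1) *
          (Real.exp (κ * (N - m : ℕ)) ^ (u - 1) * Real.exp ((u - 1 : ℕ) * κ * (N - m : ℕ))) := by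
          rw [mul_pow _ (Real.exp (κ * (N - m : ℕ))), mul_pow _ ((N : ℝ) + 1)]
          ring
      _ = _ := by rw [h4]
  obtain ⟨G, hGW, hG, hGmax⟩ := exists_max_family WW (fun p p' => p' ∈ Wl f.symm σ p)
    (fun p _ => mem_Wl_self hσ0.le) (fun p p' h => Wl_comm h)
    ⌊V' * (N + 1) ^ (u - 1) * Real.exp (2 * (u - 1 : ℕ) * κ * (N - m : ℕ))⌋₊
    (fun G h1 h2 => Nat.le_floor (hcard G h1 h2))
  have hGc := hcard G hGW hG
  -- the sum of the powers of the diameters in the image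
  set Ds : Fin n → ℝ := fun i =>
    if (Cl i ∩ closedBall (0 : EuclideanSpace ℝ (Fin u)) (1 / 2)).Nonempty then D' i else 0 with hDs
  have hDs0 : ∀ i, 0 ≤ Ds i := by
    intro i
    have := (hD'1 i).1
    simp only [hDs]
    split_ifs <;> first | exact this | exact le_rfl
  have hDsum : ∑ i, Ds i ^ u ≤ Vt * Real.exp ((u - 1 : ℕ) * κ * (N - m + l₀ : ℕ)) * G.card := by
    refine le_trans (le_of_eq ?_) (hD'3 G (closedBall 0 (1 / 2)) fun s hs => hGmax _ ⟨s, hs, rfl⟩)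
    refine Finset.sum_congr rfl fun i _ => ?_
    simp only [hDs]
    split_ifs with h
    · rfl
    · exact zero_pow (by omega)
  -- the points of the disc
  have hball8 : ∀ s ∈ closedBall (0 : EuclideanSpace ℝ (Fin u)) (ρ₁ / 8),
      ρ₁⁻¹ • s ∈ closedBall (0 : EuclideanSpace ℝ (Fin u)) (1 / 8) := by
    intro s hs
    rw [mem_closedBall_zero_iff] at hs ⊢
    rw [norm_smul, norm_inv, Real.norm_of_nonneg hρ₁.le, inv_mul_le_iff₀ hρ₁]
    linarith
  have h81 : closedBall (0 : EuclideanSpace ℝ (Fin u)) (1 / 8) ⊆ closedBall 0 1 :=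
    closedBall_subset_closedBall (by norm_num)
  have huniq : ∀ s ∈ closedBall (0 : EuclideanSpace ℝ (Fin u)) (ρ₁ / 8), ∀ z,
      Lad f e q i (f.symm^[m] (φ w s)) z → z = X (ρ₁⁻¹ • s) := by
    intro s hs z hz
    have h1 := hlad (ρ₁⁻¹ • s) (h81 (hball8 s hs))
    rw [smul_inv_smul₀ hρ₁.ne'] at h1
    exact TrM.unique S q i _ _ _ (hz.mono (by linarith)) (h1.mono (by linarith))
  rw [huniq s hs z hz, huniq t ht z' hz']
  have hs8 := hball8 s hs
  have ht8 := hball8 t ht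
  set s' : EuclideanSpace ℝ (Fin u) := ρ₁⁻¹ • s with hs'
  set t' : EuclideanSpace ℝ (Fin u) := ρ₁⁻¹ • t with ht'
  set m' : ℕ := m - l₀ with hm'
  -- the good path
  set K : ℝ := C₁ * Real.exp (κ * (N - m : ℕ)) with hK
  have hK1 : 1 ≤ K := one_le_mul_of_one_le_of_one_le hC₁ (Real.one_le_exp (by positivity))
  set τ : ℝ := B * (N + 1) ^ u * Real.exp x₀ with hτ
  have hτ0 : 0 < τ := by positivity
  set e₂ : EuclideanSpace ℝ (Fin u) := t' - s' with he₂
  have he₂' : e₂ ∈ closedBall (0 : EuclideanSpace ℝ (Fin u)) (1 / 4) := by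
    rw [mem_closedBall_zero_iff] at hs8 ht8 ⊢
    refine (norm_sub_le _ _).trans ?_
    linarith
  have hpath : ∃ z ∈ closedBall (0 : EuclideanSpace ℝ (Fin u)) (1 / 4),
      ∑ i, (if (∃ x ∈ segment ℝ 0 z ∪ segment ℝ z e₂, ∃ y ∈ (T i).image (fun y => y - s'),
        dist x y ≤ l i) then Ds i else 0) < τ := by
    by_contra hcon
    push Not at hcon
    have h1 := hL (ι := Fin n) (fun i => (T i).image (fun y => y - s')) (fun i => Ds i / (2 * τ)) l
      e₂ K (1 / 4) Ω (ℓ * (N - m + 1)) hK1 (by norm_num) hΩ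
      (fun i => div_nonneg (hDs0 i) (by positivity)) (fun i => HT.siz i) ?_ ?_ he₂' ?_
    · -- contradiction
      have h2 : (∑ i, if (∃ y ∈ (T i).image (fun y => y - s'), dist y 0 ≤ 2 * (1 / 4)) then
          (Ds i / (2 * τ)) ^ u else 0) ≤ (∑ i, Ds i ^ u) / (2 * τ) ^ u := by
        rw [Finset.sum_div]
        refine Finset.sum_le_sum fun i _ => ?_
        have h3 : 0 ≤ Ds i ^ u / (2 * τ) ^ u := div_nonneg (pow_nonneg (hDs0 i) u) (by positivity)
        rw [div_pow]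
        split_ifs <;> first | exact h3 | exact le_rfl
      have h3 : (((ℓ * (N - m + 1) : ℕ) : ℝ) + 1) ≤ ((ℓ : ℝ) + 1) * (N + 1) := by
        have h4 : (((N - m + 1 : ℕ)) : ℝ) ≤ (N : ℝ) + 1 := by
          have : N - m + 1 ≤ N + 1 := by omega
          exact_mod_cast this
        have h5 : (0 : ℝ) ≤ N := Nat.cast_nonneg N
        rw [Nat.cast_mul]
        have h6 : (ℓ : ℝ) * ((N - m + 1 : ℕ) : ℝ) ≤ ℓ * ((N : ℝ) + 1) := by gcongr
        linarith
      have h4 : Ω * K * (((ℓ * (N - m + 1) : ℕ) : ℝ) + 1) ≤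
          Ω * C₁ * ((ℓ : ℝ) + 1) * ((N + 1) * Real.exp (κ * (N - m : ℕ))) := by
        rw [hK]
        calc _ ≤ Ω * (C₁ * Real.exp (κ * (N - m : ℕ))) * (((ℓ : ℝ) + 1) * (N + 1)) := by gcongr
          _ = _ := by ring
      have h5 : Real.exp ((u - 1 : ℕ) * κ * (N - m + l₀ : ℕ)) =
          Real.exp ((u - 1 : ℕ) * κ * l₀) * Real.exp ((u - 1 : ℕ) * κ * (N - m : ℕ)) := by
        rw [← Real.exp_add]
        push_cast
        ring_nf
      have h6 : ∑ i, Ds i ^ u ≤ Vt * (Real.exp ((u - 1 : ℕ) * κ * l₀) *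
          Real.exp ((u - 1 : ℕ) * κ * (N - m : ℕ))) * (V' * (N + 1) ^ (u - 1) *
            Real.exp (2 * (u - 1 : ℕ) * κ * (N - m : ℕ))) := by
        rw [h5] at hDsum
        refine hDsum.trans ?_
        gcongr
      have h7 : (1 : ℝ) ≤ CL * (Ω * C₁ * ((ℓ : ℝ) + 1) *
          ((N + 1) * Real.exp (κ * (N - m : ℕ)))) ^ (u - 1) *
          (Vt * (Real.exp ((u - 1 : ℕ) * κ * l₀) *
          Real.exp ((u - 1 : ℕ) * κ * (N - m : ℕ))) * (V' * (N + 1) ^ (u - 1) *
            Real.exp (2 * (u - 1 : ℕ) * κ * (N - m : ℕ))) / (2 * τ) ^ u) := by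
        refine h1.trans ?_
        refine mul_le_mul ?_ (h2.trans ?_) ?_ (by positivity)
        · have h8 : 0 ≤ Ω * K * (((ℓ * (N - m + 1) : ℕ) : ℝ) + 1) := by positivity
          gcongr
        · gcongr
        · refine Finset.sum_nonneg fun i _ => ?_
          have h8 : 0 ≤ (Ds i / (2 * τ)) ^ u := pow_nonneg (div_nonneg (hDs0 i) (by positivity)) u
          split_ifs <;> first | exact h8 | exact le_rfl
      have h8 : Real.exp (κ * (N - m : ℕ)) ^ (u - 1) * (Real.exp ((u - 1 : ℕ) * κ * (N - m : ℕ)) *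
          Real.exp (2 * (u - 1 : ℕ) * κ * (N - m : ℕ))) = Real.exp x₀ ^ u := by
        rw [← Real.exp_nat_mul, ← Real.exp_nat_mul, ← Real.exp_add, ← Real.exp_add, hx₀]
        congr 1
        have hu0 : (u : ℝ) ≠ 0 := by
          have : u ≠ 0 := by omega
          exact_mod_cast this
        field_simp
        ring
      have h9 : CL * (Ω * C₁ * ((ℓ : ℝ) + 1) *
          ((N + 1) * Real.exp (κ * (N - m : ℕ)))) ^ (u - 1) *
          (Vt * (Real.exp ((u - 1 : ℕ) * κ * l₀) *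
          Real.exp ((u - 1 : ℕ) * κ * (N - m : ℕ))) * (V' * (N + 1) ^ (u - 1) *
            Real.exp (2 * (u - 1 : ℕ) * κ * (N - m : ℕ))) / (2 * τ) ^ u) =
          W * ((N + 1) ^ (u - 1) * (N + 1) ^ (u - 1)) * Real.exp x₀ ^ u / (2 * τ) ^ u := by
        rw [← h8, hW, mul_pow (Ω * C₁ * ((ℓ : ℝ) + 1)), mul_pow ((N : ℝ) + 1)]
        ring
      rw [h9, le_div_iff₀ (by positivity), one_mul] at h7
      have h10 : ((N : ℝ) + 1) ^ (u - 1) * (N + 1) ^ (u - 1) ≤ ((N + 1) ^ u) ^ u := by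
        rw [← pow_add, ← pow_mul]
        refine pow_le_pow_right₀ (by
          have : (0 : ℝ) ≤ N := Nat.cast_nonneg N
          linarith) ?_
        obtain ⟨k, hk⟩ : ∃ k, u = k + 1 := ⟨u - 1, by omega⟩
        rw [hk, Nat.add_sub_cancel]
        nlinarith
      have h11 : B ≤ B ^ u := by
        calc B = B ^ 1 := (pow_one B).symm
          _ ≤ B ^ u := pow_le_pow_right₀ hB1 hu
      have h12 : W * (((N : ℝ) + 1) ^ (u - 1) * (N + 1) ^ (u - 1)) * Real.exp x₀ ^ u ≤ τ ^ u := by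
        rw [hτ, mul_pow, mul_pow]
        have h13 : W ≤ B ^ u := hBW.trans h11
        gcongr
      have h13 : (2 : ℝ) ≤ 2 ^ u := by
        calc (2 : ℝ) = 2 ^ 1 := (pow_one 2).symm
          _ ≤ 2 ^ u := pow_le_pow_right₀ (by norm_num) hu
      have h14 : 0 < τ ^ u := by positivity
      have h15 : 2 * τ ^ u ≤ (2 * τ) ^ u := by
        rw [mul_pow 2 τ u]
        exact mul_le_mul_of_nonneg_right h13 h14.le
      linarith
    · -- diameters
      intro i y hy y' hy'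
      obtain ⟨y₀, hy₀, rfl⟩ := Finset.mem_image.1 hy
      obtain ⟨y₁, hy₁, rfl⟩ := Finset.mem_image.1 hy'
      rw [dist_sub_right]
      exact HT.dia i y₀ hy₀ y₁ hy₁
    · -- overlap
      intro x
      refine le_trans ?_ (HT.ovl (x + s'))
      rw [Nat.cast_le]
      refine Finset.card_le_card_of_injOn
        (fun α : (Σ _ : Fin n, EuclideanSpace ℝ (Fin u)) => ⟨α.1, α.2 + s'⟩) ?_ ?_
      · rintro ⟨i, y⟩ hα
        obtain ⟨h1, h2⟩ := Finset.mem_filter.1 (Finset.mem_coe.1 hα)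
        obtain ⟨-, h3⟩ := Finset.mem_sigma.1 h1
        obtain ⟨y₀, hy₀, rfl⟩ := Finset.mem_image.1 h3
        refine Finset.mem_coe.2 (Finset.mem_filter.2 ⟨Finset.mem_sigma.2 ⟨Finset.mem_univ _, ?_⟩, ?_⟩)
        · simpa using hy₀
        · simp only [sub_add_cancel]
          have h4 : dist (y₀ - s') x = dist y₀ (x + s') := by
            rw [dist_eq_norm, dist_eq_norm]
            congr 1
            abel
          rw [← h4]
          exact h2
      · rintro ⟨i, y⟩ _ ⟨j, y'⟩ _ hαβ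
        simp only [Sigma.mk.injEq] at hαβ
        obtain ⟨rfl, h2⟩ := hαβ
        have h3 := eq_of_heq h2
        rw [add_left_injective s' h3]
    · -- the paths
      intro z hz
      have h1 := hcon z hz
      have h2 : (∑ i, if (∃ x ∈ segment ℝ 0 z ∪ segment ℝ z e₂,
          ∃ y ∈ (T i).image (fun y => y - s'), dist x y ≤ l i) then Ds i / (2 * τ) else 0) =
          (∑ i, if (∃ x ∈ segment ℝ 0 z ∪ segment ℝ z e₂,
          ∃ y ∈ (T i).image (fun y => y - s'), dist x y ≤ l i) then Ds i else 0) / (2 * τ) := by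
        rw [Finset.sum_div]
        refine Finset.sum_congr rfl fun i _ => ?_
        split_ifs
        · rfl
        · rw [zero_div]
      show 1 / 2 ≤ ∑ i, if (∃ x ∈ segment ℝ 0 z ∪ segment ℝ z e₂,
          ∃ y ∈ (T i).image (fun y => y - s'), dist x y ≤ l i) then Ds i / (2 * τ) else 0
      rw [h2, le_div_iff₀ (by positivity)]
      linarith
  obtain ⟨z₀, hz₀, hz₀'⟩ := hpath
  -- the two segments
  have hE : ∀ i, 0 ≤ C * Real.exp (-(a * m')) * D' i := fun i =>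
    mul_nonneg (by positivity) (hD'1 i).1
  have hXE : ∀ i, ∀ x ∈ Cl i, ∀ y ∈ Cl i,
      X x ∈ Wl f.symm (C * Real.exp (-(a * m')) * D' i) (X y) := by
    intro i x hx y hy
    have h1 : D' i ≤ r := by
      refine (hD'1 i).2.trans ?_
      have h2 : C ^ 3 ≤ C ^ 5 := pow_le_pow_right₀ hC (by norm_num)
      have h3 : C ^ 3 * η ≤ C ^ 5 * η := by gcongr
      have h4 : 0 ≤ C ^ 5 * η := by positivity
      linarith
    have h2 := wl_back S h1 (hD'2 i x hx y hy) m'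
    rw [hYX, hYX, TrM.sii, TrM.sii] at h2
    exact h2
  have hs1 : s' ∈ closedBall (0 : EuclideanSpace ℝ (Fin u)) 1 := h81 hs8
  have ht1 : t' ∈ closedBall (0 : EuclideanSpace ℝ (Fin u)) 1 := h81 ht8
  have hzs : s' + z₀ ∈ closedBall (0 : EuclideanSpace ℝ (Fin u)) (1 / 2) := by
    rw [mem_closedBall_zero_iff] at hs8 hz₀ ⊢
    refine (norm_add_le _ _).trans ?_
    linarith
  have h12 : closedBall (0 : EuclideanSpace ℝ (Fin u)) (1 / 2) ⊆ closedBall 0 1 :=
    closedBall_subset_closedBall (by norm_num)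
  have h82 : closedBall (0 : EuclideanSpace ℝ (Fin u)) (1 / 8) ⊆ closedBall 0 (1 / 2) :=
    closedBall_subset_closedBall (by norm_num)
  have hseg : ∀ x y : EuclideanSpace ℝ (Fin u),
      x ∈ closedBall (0 : EuclideanSpace ℝ (Fin u)) (1 / 2) →
      y ∈ closedBall (0 : EuclideanSpace ℝ (Fin u)) (1 / 2) →
      (∀ ξ ∈ segment ℝ x y, ξ - s' ∈ segment ℝ 0 z₀ ∪ segment ℝ z₀ e₂) →
      (∑ i, if (∃ ξ ∈ segment ℝ x y, ξ ∈ Cl i) then C * Real.exp (-(a * m')) * D' i else 0) ≤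
        C * Real.exp (-(a * m')) * τ := by
    intro x y hx hy hxy
    calc (∑ i, if (∃ ξ ∈ segment ℝ x y, ξ ∈ Cl i) then C * Real.exp (-(a * m')) * D' i else 0)
        ≤ ∑ i, C * Real.exp (-(a * m')) * (if (∃ x ∈ segment ℝ 0 z₀ ∪ segment ℝ z₀ e₂,
            ∃ y ∈ (T i).image (fun y => y - s'), dist x y ≤ l i) then Ds i else 0) := by
          refine Finset.sum_le_sum fun i _ => ?_
          by_cases h : ∃ ξ ∈ segment ℝ x y, ξ ∈ Cl i
          · rw [if_pos h]
            obtain ⟨ξ, hξ, hξ'⟩ := h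
            obtain ⟨y₀, hy₀, hd⟩ := HT.cov i ξ hξ'
            rw [if_pos ⟨ξ - s', hxy ξ hξ, y₀ - s', Finset.mem_image_of_mem _ hy₀, by
              rw [dist_sub_right]; exact hd⟩]
            have h1 : (Cl i ∩ closedBall (0 : EuclideanSpace ℝ (Fin u)) (1 / 2)).Nonempty :=
              ⟨ξ, hξ', (convex_closedBall _ _).segment_subset hx hy hξ⟩
            simp only [hDs]
            rw [if_pos h1]
          · rw [if_neg h]
            have h1 := hDs0 i
            refine mul_nonneg (by positivity) ?_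
            split_ifs <;> first | exact h1 | exact le_rfl
      _ = C * Real.exp (-(a * m')) * ∑ i, (if (∃ x ∈ segment ℝ 0 z₀ ∪ segment ℝ z₀ e₂,
            ∃ y ∈ (T i).image (fun y => y - s'), dist x y ≤ l i) then Ds i else 0) := by
          rw [Finset.mul_sum]
      _ ≤ C * Real.exp (-(a * m')) * τ := by
          gcongr
  have hA1 := seg_bound hCov hE HT.clo H.cov hXE hs1 (h12 hzs)
  have hA2 := seg_bound hCov hE HT.clo H.cov hXE (h12 hzs) ht1
  have hB1 := hseg s' (s' + z₀) (h82 hs8) hzs (fun ξ hξ => Or.inl ?_)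
  · have hB2 := hseg (s' + z₀) t' hzs (h82 ht8) (fun ξ hξ => Or.inr ?_)
    · have h1 := Wl_trans hA1 hA2
      refine Wl_mono ?_ h1
      have h2 : C * Real.exp (-(a * m')) = E₀ * Real.exp (-(a * m)) := by
        have h3 : Real.exp (-(a * m')) = Real.exp (a * l₀) * Real.exp (-(a * m)) := by
          rw [← Real.exp_add, hm', Nat.cast_sub hml]
          ring_nf
        rw [h3, hE₀]
        ring
      rw [h2] at hB1 hB2
      have h3 : 2 * (E₀ * Real.exp (-(a * m)) * τ) =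
          2 * (E₀ * B) * (N + 1) ^ u * Real.exp (x₀ - a * m) := by
        rw [hτ, sub_eq_add_neg, Real.exp_add]
        ring
      have h4 : 2 * (E₀ * B) * (N + 1) ^ u * Real.exp (x₀ - a * m) ≤
          Cf * (N + 1) ^ u * Real.exp (x₀ - a * m) := by
        have h5 : 2 * (E₀ * B) ≤ Cf := by
          have : 0 ≤ 2 * e * Real.exp (a * l₀) + 4 * C ^ 3 * η := by positivity
          linarith
        gcongr
      rw [h2]
      linarith
    · refine (mem_segment_translate ℝ s').1 ?_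
      have h1 : s' + (ξ - s') = ξ := by abel
      have h2 : s' + e₂ = t' := by rw [he₂]; abel
      rw [h1, h2]
      exact hξ
  · refine (mem_segment_translate ℝ s').1 ?_
    have h1 : s' + (ξ - s') = ξ := by abel
    rw [h1, add_zero]
    exact hξ

end Pool.Agent.Lib.MP610fe3.AC.U2
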