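import Pool.Agent.Lib.MP_610fe3_an.AC.U1.AllE
import Pool.Agent.Lib.MP_610fe3_an.AC.U2.CHAIN
import Pool.Agent.Lib.MP_610fe3_an.AC.U2.COVW
import Pool.Agent.Lib.MP_610fe3_an.AC.U2.EyGen8

/-!
# The exponent `4 (u - 1) / u`: the key estimate, from EYB2 and TGT
-/

namespace Pool.Agent.Lib.MP610fe3.AC.U2

open _root_.Pool.Agent.Lib.MP610fe3.AC.U1

universe u v

/-- The exponent is not negative. -/
theorem hP2 : ∀ u : ℕ, (0 : ℝ) ≤ 4 * ((u - 1 : ℕ) : ℝ) / u := fun _ => by positivity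

/-- The key estimate with the exponent `4 (u - 1) / u`. -/
theorem specEyGenP2_of (hEB : SpecEyB2.{v}) (hT : SpecTgt.{v}) :
    MP610fe3.U1.SpecEyGenP.{v} (fun u => 4 * ((u - 1 : ℕ) : ℝ) / u) :=
  specChain _ (specEyGen8_of (specEyA1 specLoc1 specCutM specNet) hEB hT specLoc1 specCovW)

end Pool.Agent.Lib.MP610fe3.AC.U2
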